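import Pool.Agent.Q175.NP.ChenG

/-!
# Triples with a prime, a `P₂` and an almost prime in narrow progressions, uniformly in the triple

Let `h = (h 0, h 1)` be the shifts of an admissible triple `(p, p + h 0, p + h 1)`, both at most `X`, for example `(2, 6)` or `(4, 6)`,
and let `j` be `0` or `1`.  Consider the primes `p` such that `p + h j` has at most two prime factors, all larger than `X ^ (1/9)`,
and no element of the triple has a prime factor `≤ X ^ (1/t)`.  Uniformly in `h`, their number in every interval of length `θ X` has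
at least the order of magnitude predicted for triples of primes; every subset of positive relative density contains arithmetic
progressions of any length whose difference is at most a power of `log X`; and for every colouring there are such progressions of
one colour along which the number of the prime factors of `p + h 0` and of `p + h 1` is constant.
-/

set_option autoImplicit false

namespace Pool.Agent.Results.MP_c0d11e_nt.ChenTriplesInProgression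

open Finset
open Pool.Agent.Q175.NP.Ch
open Pool.Agent.Y840.CT (rho VF)

/-- `{0, h 0, h 1}` is admissible (and the shifts are positive) -/
def Admissible (h : Fin 2 → ℕ) : Prop :=
  (∀ i, 1 ≤ h i) ∧ ∀ q : ℕ, q.Prime → ∃ n : ℕ, ¬ q ∣ n ∧ ∀ i, ¬ q ∣ n + h i

open Classical in
/-- the primes `p > X ^ (1/t)` of `(A, B]` such that `p + h j` has at most two prime factors, all larger than `X ^ (1/9)`, and
`p + h 0`, `p + h 1` have no prime factor `≤ X ^ (1/t)` -/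
noncomputable def G (t X A B : ℕ) (h : Fin 2 → ℕ) (j : Fin 2) : Finset ℕ :=
  (Ioc A B).filter (fun p => p.Prime ∧ (X : ℝ) ^ (1 / (t : ℝ)) < p ∧ (p + h j).primeFactorsList.length ≤ 2 ∧
    (∀ q : ℕ, q.Prime → q ∣ p + h j → (X : ℝ) ^ (1 / 9 : ℝ) < q) ∧
    ∀ i, ∀ q : ℕ, q.Prime → q ∣ p + h i → (X : ℝ) ^ (1 / (t : ℝ)) < q)

open Classical in
/-- the number of the classes `n` modulo `q` with `q ∣ n (n + h 0) (n + h 1)` -/
noncomputable def ω (h : Fin 2 → ℕ) (q : ℕ) : ℕ := ((range q).filter (fun n => q ∣ n ∨ ∃ i, q ∣ n + h i)).card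

/-- the sieve product of the triple -/
noncomputable def V (h : Fin 2 → ℕ) (X : ℕ) : ℝ := ∏ q ∈ (Icc 1 X).filter Nat.Prime, (1 - (ω h q : ℝ) / q)

lemma G_eq (t X A B : ℕ) (h : Fin 2 → ℕ) (j : Fin 2) : G t X A B h j = CG t X A B h j := by
  classical
  ext p
  rw [mem_CG]
  unfold G
  rw [mem_filter, mem_Ioc]

lemma ω_eq (h : Fin 2 → ℕ) {q : ℕ} (hq : 0 < q) : rho (FS h q) q = ω h q := by
  classical
  have hq0 : (0 : ℤ) < q := by exact_mod_cast hq
  unfold rho ω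
  rw [← card_image_of_injective ((range q).filter (fun n => q ∣ n ∨ ∃ i, q ∣ n + h i))
    (Nat.cast_injective (R := ℤ))]
  congr 1
  ext z
  rw [mem_image, mem_image]
  constructor
  · rintro ⟨w, hw, rfl⟩
    have h1 := Int.emod_lt_of_pos w hq0
    have h2 := Int.emod_nonneg w hq0.ne'
    have h3 : (((w % q).toNat : ℕ) : ℤ) = w % q := Int.toNat_of_nonneg h2
    refine ⟨(w % q).toNat, ?_, h3⟩
    rw [mem_filter, mem_range]
    refine ⟨by omega, ?_⟩
    rcases mem_insert.1 hw with h4 | h4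
    · left
      rw [h4]
      simp
    · right
      obtain ⟨i, rfl⟩ := mem_FS.1 h4
      refine ⟨i, ?_⟩
      have h5 : (q : ℤ) ∣ (((-(h i : ℤ)) % q).toNat : ℕ) + (h i : ℤ) := by
        rw [h3]
        have h6 : (q : ℤ) ∣ -(h i : ℤ) - (-(h i : ℤ)) % q := Int.dvd_self_sub_emod
        have h7 : (-(h i : ℤ)) % q + (h i : ℤ) = -(-(h i : ℤ) - (-(h i : ℤ)) % q) := by ring
        rw [h7, dvd_neg]
        exact h6
      exact_mod_cast h5
  · rintro ⟨n, hn, rfl⟩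
    rw [mem_filter, mem_range] at hn
    obtain ⟨h1, h2⟩ := hn
    have h3 : (n : ℤ) % q = n := Int.emod_eq_of_lt (by positivity) (by exact_mod_cast h1)
    rcases h2 with h2 | ⟨i, h2⟩
    · refine ⟨0, mem_insert_self _ _, ?_⟩
      rw [← h3]
      obtain ⟨c, rfl⟩ := h2
      simp
    · refine ⟨-(h i : ℤ), mem_insert_of_mem (mem_FS.2 ⟨i, rfl⟩), ?_⟩
      show -(h i : ℤ) % q = n
      rw [← h3]
      apply Int.ModEq.symm
      apply Int.modEq_iff_dvd.2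
      obtain ⟨c, hc⟩ := h2
      refine ⟨-c, ?_⟩
      have : (n : ℤ) + h i = q * c := by exact_mod_cast hc
      linarith

lemma V_eq (h : Fin 2 → ℕ) (X : ℕ) : VS h X = V h X := by
  unfold VS VF V
  apply prod_congr rfl
  intro q hq
  rw [ω_eq h (mem_filter.1 hq).2.pos]

lemma adm1 : Admissible ![2, 6] := by
  refine ⟨fun i => by fin_cases i <;> simp, fun q hq => ?_⟩
  by_cases h1 : q = 3 ∨ q = 7
  · refine ⟨2, ?_, fun i => ?_⟩
    · rcases h1 with rfl | rfl <;> norm_num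
    · rcases h1 with rfl | rfl <;> fin_cases i <;> decide
  · push Not at h1
    have key : ∀ p : ℕ, p.Prime → q ≠ p → ¬ q ∣ p := fun p hp hqp h => hqp ((Nat.prime_dvd_prime_iff_eq hq hp).1 h)
    refine ⟨1, hq.one_lt.ne' ∘ Nat.dvd_one.1, fun i => ?_⟩
    fin_cases i
    · exact key 3 (by norm_num) h1.1
    · exact key 7 (by norm_num) h1.2

lemma adm2 : Admissible ![4, 6] := by
  refine ⟨fun i => by fin_cases i <;> simp, fun q hq => ?_⟩
  by_cases h1 : q = 5 ∨ q = 7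
  · refine ⟨2, ?_, fun i => ?_⟩
    · rcases h1 with rfl | rfl <;> norm_num
    · rcases h1 with rfl | rfl <;> fin_cases i <;> decide
  · push Not at h1
    have key : ∀ p : ℕ, p.Prime → q ≠ p → ¬ q ∣ p := fun p hp hqp h => hqp ((Nat.prime_dvd_prime_iff_eq hq hp).1 h)
    refine ⟨1, hq.one_lt.ne' ∘ Nat.dvd_one.1, fun i => ?_⟩
    fin_cases i
    · exact key 5 (by norm_num) h1.1
    · exact key 7 (by norm_num) h1.2

/-- **Triples with a prime, a `P₂` and an almost prime in narrow progressions.** -/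
theorem result : Admissible ![2, 6] ∧ Admissible ![4, 6] ∧ ∃ t : ℕ, 1 ≤ t ∧
    (∃ c : ℝ, 0 < c ∧ (∀ X : ℕ, 2 ≤ X → ∀ h : Fin 2 → ℕ, Admissible h → (∀ i, h i ≤ X) → c / Real.log X ^ 3 ≤ V h X) ∧
      ∀ θ : ℝ, 0 < θ → ∃ X₀ : ℕ, ∀ X : ℕ, X₀ ≤ X → ∀ h : Fin 2 → ℕ, Admissible h → (∀ i, h i ≤ X) →
      ∀ j : Fin 2, ∀ A B : ℕ, B ≤ X → θ * X ≤ (B : ℝ) - A →
      c * (((B : ℝ) - A) * V h X) ≤ ((G t X A B h j).card : ℝ)) ∧
    (∀ (L : ℕ) (θ ε : ℝ), 0 < θ → 0 < ε → ∃ D X₀ : ℕ, ∀ X : ℕ, X₀ ≤ X →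
      ∀ h : Fin 2 → ℕ, Admissible h → (∀ i, h i ≤ X) → ∀ j : Fin 2, ∀ A B : ℕ, B ≤ X → θ * X ≤ (B : ℝ) - A →
      ∀ S ⊆ G t X A B h j, ε * ((G t X A B h j).card : ℝ) ≤ S.card →
      ∃ p d : ℕ, 1 ≤ d ∧ (d : ℝ) ≤ Real.log X ^ D ∧ ∀ m < L, p + m * d ∈ S) ∧
    (∀ (L r : ℕ) (θ : ℝ), 1 ≤ r → 0 < θ → ∃ D X₀ : ℕ, ∀ X : ℕ, X₀ ≤ X →
      ∀ h : Fin 2 → ℕ, Admissible h → (∀ i, h i ≤ X) → ∀ j : Fin 2, ∀ A B : ℕ, B ≤ X → θ * X ≤ (B : ℝ) - A →
      ∀ col : ℕ → Fin r,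
      ∃ s : Fin 2 → ℕ, (∀ i, 1 ≤ s i ∧ s i ≤ 2 * t) ∧ s j ≤ 2 ∧ ∃ e : Fin r, ∃ p d : ℕ,
        1 ≤ d ∧ (d : ℝ) ≤ Real.log X ^ D ∧ ∀ m < L, p + m * d ∈ G t X A B h j ∧ col (p + m * d) = e ∧
        ∀ i, (p + m * d + h i).primeFactorsList.length = s i) := by
  refine ⟨adm1, adm2, ?_⟩
  obtain ⟨t, ht, ⟨c, hc, h0, h1⟩, h2, h3⟩ := chenT (Fin 2)
  refine ⟨t, ht, ⟨c, hc, ?_, ?_⟩, ?_, ?_⟩
  · intro X hX h ha hle
    rw [← V_eq]
    exact h0 X hX h ⟨ha.1, hle, ha.2⟩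
  · intro θ hθ
    obtain ⟨X₀, H⟩ := h1 θ hθ
    refine ⟨X₀, fun X hX h ha hle j A B hBX hAB => ?_⟩
    rw [← V_eq, G_eq]
    exact H X hX h ⟨ha.1, hle, ha.2⟩ j A B hBX hAB
  · intro L θ ε hθ hε
    obtain ⟨D, X₀, H⟩ := h2 L θ ε hθ hε
    refine ⟨D, X₀, fun X hX h ha hle j A B hBX hAB => ?_⟩
    rw [G_eq]
    exact H X hX h ⟨ha.1, hle, ha.2⟩ j A B hBX hAB
  · intro L r θ hr hθ
    obtain ⟨D, X₀, H⟩ := h3 L r θ hr hθ
    refine ⟨D, X₀, fun X hX h ha hle j A B hBX hAB => ?_⟩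
    rw [G_eq]
    exact H X hX h ⟨ha.1, hle, ha.2⟩ j A B hBX hAB

end Pool.Agent.Results.MP_c0d11e_nt.ChenTriplesInProgression
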