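import Pool.Agent.Q117.LF.Row5

/-!
MP_c0d11e_nt (Hardy-Littlewood asymptotics for prime triples): every admissible constellation containing almost prime triples, with a prime and a product of two
primes at any two places and all other triples of both shapes at the natural distance, in the right order of magnitude.
-/

set_option autoImplicit false

namespace Pool.Agent.Results.MP_c0d11e_nt.EveryConstellation

/-- all prime factors of `m` are `> z` (so `0` is not rough) -/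
def Rough (z : ℝ) (m : ℤ) : Prop := ∀ p : ℕ, p.Prime → (p : ℤ) ∣ m → z < p

/-- at most two prime factors (with multiplicity), all `> z` -/
def AtMostTwo (z : ℝ) (m : ℤ) : Prop := m.natAbs.primeFactorsList.length ≤ 2 ∧ Rough z m

/-- `E` misses a residue class modulo every prime -/
def Admissible (E : Finset ℤ) : Prop := ∀ p : ℕ, p.Prime → ∃ r : ℤ, ∀ e ∈ E, ¬ (p : ℤ) ∣ r + e

open Classical in
/-- the product of `(1 - ω(p) / p) / (1 - 1 / p) ^ |E|` over the primes `p ≤ y`, where `ω(p)` is the number of the residue classes modulo `p` that contain an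
element of `E`: the singular series of `E` truncated at `y` -/
noncomputable def sing (y : ℕ) (E : Finset ℤ) : ℝ :=
  ∏ p ∈ (Finset.Icc 1 y).filter Nat.Prime, ((1 - ((E.image (fun e : ℤ => e % (p : ℤ))).card : ℝ) / p) / (1 - 1 / (p : ℝ)) ^ E.card)

/-- the numbers `m`, `m + b`, `m + 6` have only prime factors `> z` -/
def Triple (z : ℝ) (b m : ℤ) : Prop := Rough z m ∧ Rough z (m + b) ∧ Rough z (m + 6)

/-- the `n ∈ (X, 2X]` with `n + e₁` prime, `n + e₂` with at most two prime factors, all `> X ^ (1/9)`, all the `n + e` rough, and such that all the almost prime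
triples of either shape at distance `≤ ν (log X) ^ 3` from `n` are contained in `n + E` -/
def Good (t : ℕ) (ν X : ℝ) (E : Finset ℤ) (e₁ e₂ : ℤ) : Set ℕ :=
  {n : ℕ | X < n ∧ (n : ℝ) ≤ 2 * X ∧ ((n : ℤ) + e₁).toNat.Prime ∧ AtMostTwo (X ^ (1 / 9 : ℝ)) ((n : ℤ) + e₂) ∧
    (∀ e ∈ E, Rough (X ^ (1 / (t : ℝ))) ((n : ℤ) + e)) ∧
    ∀ b : ℤ, (b = 2 ∨ b = 4) → ∀ d : ℤ, |(d : ℝ)| ≤ ν * Real.log X ^ 3 → Triple (X ^ (1 / (t : ℝ))) b (n + d) → d ∈ E ∧ d + b ∈ E ∧ d + 6 ∈ E}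

theorem result : ∀ k : ℕ, ∃ t : ℕ, 1 ≤ t ∧ ∃ c : ℝ, 0 < c ∧ ∃ ν : ℝ, 0 < ν ∧ ∃ X0 : ℝ, ∀ X : ℝ, X0 ≤ X → ∀ E : Finset ℤ, E.card ≤ k →
    (∀ e ∈ E, 0 ≤ e ∧ (e : ℝ) ≤ X) → Admissible E → ∀ e₁ ∈ E, ∀ e₂ ∈ E, e₁ ≠ e₂ → ∀ y : ℕ, X ≤ y →
      c * (X / Real.log X ^ E.card * sing y E) ≤ ((Good t ν X E e₁ e₂).ncard : ℝ) := by
  intro k
  obtain ⟨t, ht, c, hc, ν, hν, X0, h⟩ := Pool.Agent.Q117.LF.fswS k 2 ![{0, 2, 6}, {0, 4, 6}] (fun γ => by fin_cases γ <;> exact ⟨0, by decide⟩)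
  refine ⟨t, ht, c, hc, ν, hν, max X0 0, fun X hX E hk hE ha e₁ m₁ e₂ m₂ hne y hy => ?_⟩
  refine (h X ((le_max_left _ _).trans hX) E hk hE ha e₁ m₁ e₂ m₂ hne y hy).trans ?_
  have hfin : (Good t ν X E e₁ e₂).Finite := by
    apply Set.Finite.subset (Set.finite_Iic ⌊2 * X⌋₊)
    rintro n ⟨-, h2, -⟩
    exact Nat.le_floor h2
  rw [Nat.cast_le]
  apply Set.ncard_le_ncard _ hfin
  rintro n ⟨g1, g2, g3, g4, g5, g6⟩
  refine ⟨g1, g2, g3, g4, g5, fun b hb d hd hT => ?_⟩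
  obtain ⟨T1, T2, T3⟩ := hT
  have hR : ∀ x : ℤ, Rough (X ^ (1 / (t : ℝ))) x → Pool.Agent.Q117.LF.Ro (X ^ (1 / (t : ℝ))) x := fun x hx => hx
  rcases hb with rfl | rfl
  · have h0 := g6 0 d hd (by
      intro f hf
      have hf' : f ∈ ({0, 2, 6} : Finset ℤ) := hf
      simp only [Finset.mem_insert, Finset.mem_singleton] at hf'
      apply hR
      rcases hf' with rfl | rfl | rfl
      · rw [add_zero]; exact T1
      · exact T2
      · exact T3)
    refine ⟨?_, h0 2 (show (2 : ℤ) ∈ ({0, 2, 6} : Finset ℤ) by decide), h0 6 (show (6 : ℤ) ∈ ({0, 2, 6} : Finset ℤ) by decide)⟩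
    have := h0 0 (show (0 : ℤ) ∈ ({0, 2, 6} : Finset ℤ) by decide)
    rwa [add_zero] at this
  · have h0 := g6 1 d hd (by
      intro f hf
      have hf' : f ∈ ({0, 4, 6} : Finset ℤ) := hf
      simp only [Finset.mem_insert, Finset.mem_singleton] at hf'
      apply hR
      rcases hf' with rfl | rfl | rfl
      · rw [add_zero]; exact T1
      · exact T2
      · exact T3)
    refine ⟨?_, h0 4 (show (4 : ℤ) ∈ ({0, 4, 6} : Finset ℤ) by decide), h0 6 (show (6 : ℤ) ∈ ({0, 4, 6} : Finset ℤ) by decide)⟩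
    have := h0 0 (show (0 : ℤ) ∈ ({0, 4, 6} : Finset ℤ) by decide)
    rwa [add_zero] at this

end Pool.Agent.Results.MP_c0d11e_nt.EveryConstellation
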