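import Pool.Agent.Q106.MD.UFin

/-!
# MP_c0d11e_nt: the errors in the asymptotics for all tuples with shifts up to `x^C` in the sieved models of the primes

The sieved model of level `Q`: a random set `A` which contains the integers `n` coprime to `Q` independently with
probability `(Q / φ(Q)) / log n` (at most `1`), and no others (`IsModel μ (level Q) A`; `Q = 1` is Cramér's model).
For a set `H` of `k` positive shifts (`k = 2` for triples) let the deviation be the difference of the number of the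
`m ≤ x` such that `m` and all `m + h`, `h ∈ H`, are elements of `A`, and the prediction with the singular series of
level `Q`, divided by the square root of `2 · prediction · log x`. Let `k ≥ 1` and `C > 1`. Almost surely, for all
large `x`, the deviations of all sets `H` of `k` shifts up to `x^C` are at most `√(k C) + o(1)` in absolute value, all
values in `[-√(k C), √(k C)]` are approached, and the number of the `H` with deviation near `d` is
`x^(k C - d^2 + o(1))`.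
-/

set_option autoImplicit false

namespace Pool.Agent.Results.MP_c0d11e_nt.SpectrumOfAllShifts

open Finset MeasureTheory ProbabilityTheory Filter
open scoped Topology
open Pool.Agent.Q120.GM (IsModel level sing)

/-- The number of the `m`, `1 ≤ m ≤ x`, such that `m` and all `m + h`, `h ∈ H`, are elements of `A`. -/
noncomputable def count (A : Set ℕ) (H : Finset ℕ) (x : ℕ) : ℝ :=
  ({m : ℕ | 1 ≤ m ∧ m ≤ x ∧ ∀ h ∈ insert 0 H, m + h ∈ A}.ncard : ℝ)

/-- The predicted number: the singular series of level `Q` times the sum over the integers `m`, `2 ≤ m ≤ x`, of the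
product of the `1 / log (m + h)`, `h ∈ {0} ∪ H`. -/
noncomputable def predicted (Q : ℕ) (H : Finset ℕ) (x : ℕ) : ℝ :=
  sing Q (insert 0 H) * ∑ m ∈ Icc 2 x, ∏ h ∈ insert 0 H, (Real.log ((m : ℝ) + h))⁻¹

/-- The normalized deviation. -/
noncomputable def deviation (A : Set ℕ) (Q : ℕ) (H : Finset ℕ) (x : ℕ) : ℝ :=
  (count A H x - predicted Q H x) / Real.sqrt (2 * predicted Q H x * Real.log x)

/-- `H` is a set of `k` positive shifts up to `x^C`, and the singular series of level `Q` of `{0} ∪ H` is positive. -/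
def Shifts (Q k : ℕ) (C : ℝ) (x : ℕ) (H : Finset ℕ) : Prop :=
  H.card = k ∧ (∀ h ∈ H, 1 ≤ h ∧ (h : ℝ) ≤ (x : ℝ) ^ C) ∧ 0 < sing Q (insert 0 H)

theorem shifts_iff {Q k : ℕ} {C : ℝ} {x : ℕ} {H : Finset ℕ} : Shifts Q k C x H ↔ Pool.Agent.Q106.MD.Hk Q k 1 C x H := by
  constructor
  · rintro ⟨h1, h2, h3⟩
    refine ⟨h1, fun h0 => ?_, fun h hh => ?_, h3⟩
    · have := (h2 0 h0).1
      omega
    · rw [one_mul]
      exact (h2 h hh).2
  · intro h
    refine ⟨h.card, fun b hb => ⟨?_, ?_⟩, h.sing⟩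
    · by_contra hcon
      have h0 : b = 0 := by omega
      rw [h0] at hb
      exact h.zero hb
    · have := h.le b hb
      rwa [one_mul] at this

theorem count_eq {Ω : Type} (A : Ω → Set ℕ) (H : Finset ℕ) (x : ℕ) (ω : Ω) :
    count (A ω) H x = Pool.Agent.Q106.MD.Nt A H 1 (x + 1) ω := by
  unfold count Pool.Agent.Q106.MD.Nt
  rw [Pool.Agent.Q106.UR.nm_card]
  congr 1
  rw [← Set.ncard_coe_finset]
  congr 1
  ext m
  rw [Finset.mem_coe, Pool.Agent.Q106.UR.mem_oc, mem_Ico]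
  constructor
  · rintro ⟨h1, h2, h3⟩
    refine ⟨⟨h1, by omega⟩, fun b hb => ?_⟩
    obtain ⟨h, hh, rfl⟩ := Pool.Agent.Q120.GM.mem_tl.1 hb
    exact h3 h hh
  · rintro ⟨⟨h1, h2⟩, h3⟩
    exact ⟨h1, by omega, fun h hh => h3 _ (Pool.Agent.Q120.GM.mem_tl.2 ⟨h, hh, rfl⟩)⟩

theorem deviation_eq {Ω : Type} (A : Ω → Set ℕ) {Q : ℕ} (H : Finset ℕ) (x : ℕ) (ω : Ω) :
    deviation (A ω) Q H x = Pool.Agent.Q106.MD.DD Q A H x ω := by
  have h1 : predicted Q H x = Pool.Agent.Q106.MD.pr Q H x := rfl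
  unfold deviation Pool.Agent.Q106.MD.DD
  rw [count_eq A H x ω, h1]

/-- **The spectrum of the deviations of all sets of shifts.** -/
theorem result {Ω : Type} [MeasurableSpace Ω] {μ : Measure Ω} [IsProbabilityMeasure μ] {A : Ω → Set ℕ} {Q k : ℕ}
    (hQ : 1 ≤ Q) (hA : IsModel μ (level Q) A) (hk : 1 ≤ k) {C : ℝ} (hC : 1 < C) :
    ∀ᵐ ω ∂μ,
      (∀ ε > 0, ∀ᶠ x in atTop, ∀ H, Shifts Q k C x H → deviation (A ω) Q H x ^ 2 ≤ k * C + ε) ∧
      (∀ d : ℝ, d ^ 2 ≤ k * C → ∀ ε > 0, ∀ᶠ x in atTop, ∃ H, Shifts Q k C x H ∧ |deviation (A ω) Q H x - d| < ε) ∧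
      ∀ d : ℝ, d ^ 2 < k * C → ∀ δ > 0, ∃ ε₀ > 0, ∀ ε, 0 < ε → ε ≤ ε₀ → ∀ᶠ x : ℕ in atTop,
        (x : ℝ) ^ (k * C - d ^ 2 - δ) ≤ ({H | Shifts Q k C x H ∧ |deviation (A ω) Q H x - d| < ε}.ncard : ℝ) ∧
        ({H | Shifts Q k C x H ∧ |deviation (A ω) Q H x - d| < ε}.ncard : ℝ) ≤ (x : ℝ) ^ (k * C - d ^ 2 + δ) := by
  classical
  filter_upwards [Pool.Agent.Q106.MD.uni_all hA hQ hk hC] with ω hω
  obtain ⟨h1, h2, h3⟩ := hω
  simp only [deviation_eq A, shifts_iff]
  refine ⟨h1, h2, fun d hd δ hδ => ?_⟩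
  obtain ⟨ε₀, hε₀, h4⟩ := h3 d hd δ hδ
  refine ⟨ε₀, hε₀, fun ε hε hε2 => ?_⟩
  filter_upwards [h4 ε hε hε2] with x h5
  have h6 : ({H | Pool.Agent.Q106.MD.Hk Q k 1 C x H ∧ |Pool.Agent.Q106.MD.DD Q A H x ω - d| < ε}.ncard : ℝ) =
      Pool.Agent.Q106.MD.NH Q k C A d ε x ω := by
    unfold Pool.Agent.Q106.MD.NH
    rw [Pool.Agent.Q120.GM.num_card]
    congr 1
    rw [← Set.ncard_coe_finset]
    congr 1
    ext H
    rw [Finset.mem_coe, mem_filter, Pool.Agent.Q106.MD.mem_HF zero_le_one]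
    rfl
  rw [h6]
  exact h5

end Pool.Agent.Results.MP_c0d11e_nt.SpectrumOfAllShifts
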