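import Pool.Agent.Q13.TU.Lim

/-!
# The prime triples in random unions of residue classes

If the Hardy-Littlewood asymptotics for an admissible tuple fails for one union of residue classes, or for all
integers, then it fails along almost all unions of residue classes to every modulus.

Method: the number of the tuples in one class modulo `P` is at most `C / ν(P)` times the expected order, by the
sieve bound for the mean of the product of the `Λ (n + h)` along a class; so the deviations of the classes are
many small numbers with a large sum of absolute values at some arbitrarily large places, and their subset sums are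
spread out (anticoncentration, library `Pool.Agent.Q197.PS`). The number of the admissible classes modulo `P`
is `≍ P (φ(P) / P) ^ k`, and every admissible class modulo `q` has the same number of lifts to a multiple of `q`.
-/

set_option autoImplicit false

open Finset Filter Topology

namespace Pool.Agent.Results.MP_c0d11e_nt.TriplesInUnions

open Pool.Agent.Q13.TU

/-- The tuple `K` is admissible: for every prime `l` there is an `a` with no `a + h`, `h ∈ K`, divisible by `l`. -/
def Admissible (K : Finset ℕ) : Prop := ∀ l : ℕ, l.Prime → ∃ a, ∀ h ∈ K, ¬ l ∣ a + h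

/-- The residue classes `a` modulo `P` for which all `a + h`, `h ∈ K`, are prime to `P`. -/
def classes (K : Finset ℕ) (P : ℕ) : Finset ℕ :=
  (range P).filter (fun a => ∀ h ∈ K, (a + h).Coprime P)

/-- The number of the `n ≤ N` in the classes `A` modulo `P` such that all `n + h`, `h ∈ K`, are primes. -/
def count (K : Finset ℕ) (P : ℕ) (A : Finset ℕ) (N : ℕ) : ℕ :=
  ((range (N + 1)).filter (fun n => (∀ h ∈ K, (n + h).Prime) ∧ n % P ∈ A)).card

/-- The set `A` of classes modulo `P` is right: the number of the tuples in `A` has the asymptotics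
`(#A / #classes) D N / log ^ k N`. -/
def IsRight (K : Finset ℕ) (D : ℝ) (P : ℕ) (A : Finset ℕ) : Prop :=
  Tendsto (fun N : ℕ => (count K P A N : ℝ) * Real.log N ^ K.card / N) atTop
    (𝓝 (D * A.card / (classes K P).card))

open Classical in
/-- The number of the right sets of admissible classes modulo `P`. -/
noncomputable def numRight (K : Finset ℕ) (D : ℝ) (P : ℕ) : ℕ :=
  ((classes K P).powerset.filter (fun A => IsRight K D P A)).card

/-- The question, as in the frozen statement `S18375`. -/
def Question : Prop :=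
  ∃ D : ℝ,
    Tendsto (fun N : ℕ => (9 / 2 : ℝ) * ∏ p ∈ (range N).filter (fun p => p.Prime ∧ 3 < p),
      ((p : ℝ) ^ 2 * ((p : ℝ) - 3) / ((p : ℝ) - 1) ^ 3)) atTop (nhds D) ∧
    Asymptotics.IsEquivalent atTop
      (fun n : ℕ => (((range (n + 1)).filter
        (fun p => p.Prime ∧ (p + 2).Prime ∧ (p + 6).Prime)).card : ℝ))
      (fun n : ℕ => D * (n : ℝ) / Real.log (n : ℝ) ^ 3) ∧
    Asymptotics.IsEquivalent atTop
      (fun n : ℕ => (((range (n + 1)).filter
        (fun p => p.Prime ∧ (p + 4).Prime ∧ (p + 6).Prime)).card : ℝ))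
      (fun n : ℕ => D * (n : ℝ) / Real.log (n : ℝ) ^ 3)

theorem result :
    -- the zero-one law, for all admissible tuples
    (∀ (K : Finset ℕ) (D : ℝ) (q : ℕ) (B : Finset ℕ), Admissible K → 0 < q → B ⊆ classes K q →
      ¬ IsRight K D q B → ∃ C : ℝ, 0 < C ∧ ∀ P : ℕ, 0 < P → q ∣ P →
        (numRight K D P : ℝ) ≤ C * 2 ^ (classes K P).card / √((classes K P).card : ℝ)) ∧
    -- the asymptotics in all progressions
    (∀ (K : Finset ℕ) (D : ℝ), Admissible K →
      ((∀ q : ℕ, 0 < q → ∀ B ⊆ classes K q, IsRight K D q B) ↔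
        ∀ q : ℕ, 0 < q → ∀ M : ℝ, ∃ P : ℕ, 0 < P ∧ q ∣ P ∧
          M * 2 ^ (classes K P).card / √((classes K P).card : ℝ) ≤ numRight K D P)) ∧
    -- the question
    ∃ D : ℝ, 0 < D ∧
      Tendsto (fun N : ℕ => (9 / 2 : ℝ) * ∏ p ∈ (range N).filter (fun p => p.Prime ∧ 3 < p),
        ((p : ℝ) ^ 2 * ((p : ℝ) - 3) / ((p : ℝ) - 1) ^ 3)) atTop (nhds D) ∧
      Admissible {0, 2, 6} ∧ Admissible {0, 4, 6} ∧
      (Question ↔ IsRight {0, 2, 6} D 1 {0} ∧ IsRight {0, 4, 6} D 1 {0}) ∧
      ((∀ K ∈ ({{0, 2, 6}, {0, 4, 6}} : Finset (Finset ℕ)), ∀ M : ℝ, ∃ P : ℕ, 0 < P ∧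
        M * 2 ^ (classes K P).card / √((classes K P).card : ℝ) ≤ numRight K D P) → Question) := by
  refine ⟨fun K D q B hK hq hB h => zero_one hK hq hB h, fun K D hK => all_iff hK D, ?_⟩
  obtain ⟨D, hD, hlim⟩ := lim3
  have hQ : Question ↔ IsRight {0, 2, 6} D 1 {0} ∧ IsRight {0, 4, 6} D 1 {0} := by
    have e1 : IsRight {0, 2, 6} D 1 {0} ↔ Asymptotics.IsEquivalent atTop
        (fun n : ℕ => (((range (n + 1)).filter
          (fun p => p.Prime ∧ (p + 2).Prime ∧ (p + 6).Prime)).card : ℝ))
        (fun n : ℕ => D * (n : ℝ) / Real.log (n : ℝ) ^ 3) := by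
      refine (right_one {0, 2, 6} D).trans (Iff.trans ?_ (equiv_iff hD 3).symm)
      have : ∀ N : ℕ, (range (N + 1)).filter (fun n => ∀ h ∈ ({0, 2, 6} : Finset ℕ), (n + h).Prime) =
          (range (N + 1)).filter (fun p => p.Prime ∧ (p + 2).Prime ∧ (p + 6).Prime) := by
        intro N
        refine filter_congr fun n _ => ?_
        simp only [forall_mem_insert, mem_singleton, forall_eq, add_zero]
      simp_rw [this]
      rfl
    have e2 : IsRight {0, 4, 6} D 1 {0} ↔ Asymptotics.IsEquivalent atTop
        (fun n : ℕ => (((range (n + 1)).filter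
          (fun p => p.Prime ∧ (p + 4).Prime ∧ (p + 6).Prime)).card : ℝ))
        (fun n : ℕ => D * (n : ℝ) / Real.log (n : ℝ) ^ 3) := by
      refine (right_one {0, 4, 6} D).trans (Iff.trans ?_ (equiv_iff hD 3).symm)
      have : ∀ N : ℕ, (range (N + 1)).filter (fun n => ∀ h ∈ ({0, 4, 6} : Finset ℕ), (n + h).Prime) =
          (range (N + 1)).filter (fun p => p.Prime ∧ (p + 4).Prime ∧ (p + 6).Prime) := by
        intro N
        refine filter_congr fun n _ => ?_
        simp only [forall_mem_insert, mem_singleton, forall_eq, add_zero]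
      simp_rw [this]
      rfl
    rw [e1, e2]
    constructor
    · rintro ⟨D', h1, h2, h3⟩
      have : D' = D := tendsto_nhds_unique h1 hlim
      rw [this] at h2 h3
      exact ⟨h2, h3⟩
    · rintro ⟨h2, h3⟩
      exact ⟨D, hlim, h2, h3⟩
  refine ⟨D, hD, hlim, adm026, adm046, hQ, fun h => hQ.2 ⟨?_, ?_⟩⟩
  · refine right_of_share adm026 one_pos (by rw [Adm_one]) fun M => ?_
    obtain ⟨P, hP, h1⟩ := h {0, 2, 6} (by simp) M
    exact ⟨P, hP, one_dvd _, h1⟩
  · refine right_of_share adm046 one_pos (by rw [Adm_one]) fun M => ?_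
    obtain ⟨P, hP, h1⟩ := h {0, 4, 6} (by simp) M
    exact ⟨P, hP, one_dvd _, h1⟩

end Pool.Agent.Results.MP_c0d11e_nt.TriplesInUnions
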